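import Pool.Agent.WeakNonCompactness.Proof

open Pool.Agent.WeakNonCompactness

namespace Pool.Agent.Results.MP_ca490d_an.NotEquivalent

/-- **Negative answer to Q1 and Q2 of MP_ca490d_an.** In `C[0,1]` (complex valued functions) neither
`wk` nor `wck` controls the De Blasi measure `ω`: for every constant `c` there is a nonempty bounded
set `A` with `ω(A) > c · wk(A)` and `ω(A) > c · wck(A)`. -/
theorem result : ∀ c : NNReal, ∃ A : Set C(unitInterval, ℂ), A.Nonempty ∧
    Bornology.IsBounded A ∧ c * wk A < omega A ∧ c * wck A < omega A :=
  Pool.Agent.WeakNonCompactness.main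

end Pool.Agent.Results.MP_ca490d_an.NotEquivalent
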